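import Pool.Agent.Mob.Stmts
import Pool.Agent.Helper54_Ballistic.Moment

/-!
# Module TIM: the time averaged moments and the resolvent
-/

set_option autoImplicit false

open MeasureTheory ProbabilityTheory Function

open scoped ENNReal BigOperators InnerProductSpace

noncomputable section

namespace Pool.Agent.Mob.H28

open Pool.Agent.Anderson Pool.Agent.Loc Pool.Agent.Helper54.Bal

theorem tim : TimStmt := by
  intro d V ψ h T p R hT hp hR a b
  have hη : 0 < 1 / T := by positivity
  have hpi := Real.pi_pos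
  have hR0 : 0 < R := by linarith
  have hm : ∀ x : Site d, Measurable fun E : ℝ =>
      ENNReal.ofReal (‖G V (zz (1 / T) E) (del 0) x‖ ^ 2) := by
    intro x
    have h1 : Continuous fun E : ℝ => G V (zz (1 / T) E) (del 0) := by
      have h0 : Continuous fun E : ℝ => ((V, E, del 0) : (Site d → ℝ) × ℝ × L2 d) := by fun_prop
      have := (continuous_G (d := d) hη.ne').comp h0
      exact this
    exact meas_ofReal_coord h1 x
  have hdiv : ∀ (x : Site d) (E : ℝ), ENNReal.ofReal (‖G V (zz (1 / T) E) (del 0) x‖ ^ 2 / T) =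
      ENNReal.ofReal (1 / T) * ENNReal.ofReal (‖G V (zz (1 / T) E) (del 0) x‖ ^ 2) := by
    intro x E
    rw [← ENNReal.ofReal_mul hη.le]
    congr 1
    ring
  have e1 : spread V T R (Set.Ioo a b) ≤ ∑' x : Site d, if R ≤ (sd 0 x : ℝ) then
      ENNReal.ofReal (1 / T) * (ENNReal.ofReal (2 * Real.pi) *
        ∫⁻ t in Set.Ioi (0:ℝ), ENNReal.ofReal (Real.exp (-(2 * (1 / T)) * t) * ‖ψ t x‖ ^ 2))
      else 0 := by
    unfold spread
    refine (setLIntegral_le_lintegral _ _).trans ?_
    rw [lintegral_tsum]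
    · apply ENNReal.tsum_le_tsum
      intro x
      split_ifs with hx
      · simp_rw [hdiv x]
        rw [lintegral_const_mul _ (hm x), planch_coord h hη x]
      · simp
    · intro x
      split_ifs with hx
      · simp_rw [hdiv x]
        exact ((hm x).const_mul _).aemeasurable
      · exact measurable_const.aemeasurable
  have hmt : ∀ x : Site d, Measurable fun t : ℝ =>
      ENNReal.ofReal (2 / T * Real.exp (-2 * t / T) * ((sd 0 x : ℝ) ^ p * ‖ψ t x‖ ^ 2)) := by
    intro x
    have h1 := continuous_coord h.1 x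
    have h2 : Continuous fun t : ℝ =>
        2 / T * Real.exp (-2 * t / T) * ((sd 0 x : ℝ) ^ p * ‖ψ t x‖ ^ 2) := by
      have h3 : Continuous fun t : ℝ => 2 / T * Real.exp (-2 * t / T) := by fun_prop
      exact h3.mul (continuous_const.mul (h1.norm.pow 2))
    exact ENNReal.measurable_ofReal.comp h2.measurable
  have e2 : avgMoment ψ T p = ∑' x : Site d, ∫⁻ t in Set.Ioi (0:ℝ),
      ENNReal.ofReal (2 / T * Real.exp (-2 * t / T) * ((sd 0 x : ℝ) ^ p * ‖ψ t x‖ ^ 2)) := by
    unfold avgMoment
    rw [lintegral_tsum]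
    intro x
    exact (hmt x).aemeasurable
  rw [e2]
  refine (mul_le_mul_right e1 _).trans ?_
  rw [← ENNReal.tsum_mul_left]
  apply ENNReal.tsum_le_tsum
  intro x
  split_ifs with hx
  · rw [← mul_assoc, ← mul_assoc, ← ENNReal.ofReal_mul (by positivity),
      ← ENNReal.ofReal_mul (by positivity), ← lintegral_const_mul' _ _ ENNReal.ofReal_ne_top]
    apply lintegral_mono
    intro t
    dsimp only
    rw [← ENNReal.ofReal_mul (by positivity)]
    apply ENNReal.ofReal_le_ofReal
    have h1 : R ^ p ≤ (sd 0 x : ℝ) ^ p := Real.rpow_le_rpow hR0.le hx hp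
    have h2 : Real.exp (-(2 * (1 / T)) * t) = Real.exp (-2 * t / T) := by
      congr 1
      field_simp
    rw [h2]
    have h3 : R ^ p / Real.pi * (1 / T) * (2 * Real.pi) = 2 / T * R ^ p := by
      field_simp
    rw [h3]
    have h4 : 2 / T * R ^ p * (Real.exp (-2 * t / T) * ‖ψ t x‖ ^ 2) =
        2 / T * Real.exp (-2 * t / T) * (R ^ p * ‖ψ t x‖ ^ 2) := by ring
    rw [h4]
    gcongr
  · rw [mul_zero]
    exact zero_le

end Pool.Agent.Mob.H28
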